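import Pool.Agent.J4.H90.Lightning.Ergodic

set_option autoImplicit false

/-!
# The Lightning Model on `ℤ²` has at most one infinite strong cluster

Definitions: `Pool.Agent.J4.H90.Lightning.Defs`.

Sketch of the proof. Suppose that three infinite strong clusters `A₁, A₂, A₃` meet a box `B`.
Changing the potentials in `B` only (for this the potentials outside `B` next to its four corners
have to be close to `1/2`, which happens for infinitely many boxes) one makes `B` strongly
connected, and joined in both directions to all the vertices next to it. Then each `E = Aᵢ \ B` is
strongly connected to `B` inside `E ∪ B`, and is a union of strong components of the configuration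
restricted to the complement of `B`. Two disjoint boxes of this kind have branches which are nested
or disjoint, so that the number of these boxes in a large box is at most the number of vertices on
its boundary, although they have a positive density. Hence `N ≤ 2`. As `{N ≥ 2}` is invariant under
translations it has probability `0` or `1`, and if `N = 2` almost surely then the modification of a
box merges the two clusters.
-/

open MeasureTheory

namespace Pool.Agent.Results.MP_a496a1_pr.AtMostOneInfinite

open Pool.Agent.J4.H90.Lightning

/-- For every `ε ≥ 0` the number `N` of infinite strong clusters of the Lightning Model on `ℤ²` is
almost surely at most one; in particular the probability of `N = ∞` is zero. -/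
theorem result (ε : ℝ) (hε : 0 ≤ ε) :
    (∀ᵐ U ∂law, (infiniteClusters ε U).encard ≤ 1) ∧
    law {U | (infiniteClusters ε U).Infinite} = 0 := by
  refine ⟨unique hε, ?_⟩
  rw [measure_eq_zero_iff_ae_notMem]
  filter_upwards [unique hε] with U hU hinf
  have h1 : (infiniteClusters ε U).encard = ⊤ := Set.encard_eq_top_iff.2 hinf
  rw [h1] at hU
  exact absurd hU (by decide)

end Pool.Agent.Results.MP_a496a1_pr.AtMostOneInfinite
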